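import Mathlib
import Pool.Agent.H42.Ray3

open Pool.Agent.H42.RayDefs

universe u

/-- Every open subspace of the ray space of an order tree is a quasi-ray space. -/
theorem Pool.Agent.Results.MP_a0fd6e_gt.Yes.result (T : Type u) [PartialOrder T]
    (hT : IsTree T) (U : Set (Ray T)) (hU : IsOpen U) : QuasiRay U :=
  Pool.Agent.H42.Ray3.main hT U hU
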